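import Pool.Agent.Work.MP_64ea0f_cs.InterfaceD

set_option autoImplicit false

/-! # GSB: the pushing operator -/

namespace Pool.CS

namespace GSB

variable {Λ : Type} {G : SimpleGraph Λ} {A : Set Λ} {s : Λ} {F : Type} [AddCommGroup F] {V : Type}

theorem rmv_sub (s : Λ) (x : Set Λ) : rmv s x ⊆ x := fun _ h => h.1

theorem rmv_mono (s : Λ) {x y : Set Λ} (h : x ⊆ y) : rmv s x ⊆ rmv s y := fun _ ha => ⟨h ha.1, ha.2⟩

theorem mem_rmv {s t : Λ} {x : Set Λ} (h : t ∈ x) (hts : t ≠ s) : t ∈ rmv s x := ⟨h, hts⟩

/-- the lists which occur in the prism operator are weak flags -/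
theorem wk_prism {l1 l2 : List (Set Λ)} {z : Set Λ} (h : Fl G A (l1 ++ z :: l2)) :
    Wk G A (l1.map (rmv s) ++ rmv s z :: z :: l2) := by
  obtain ⟨hp, hm⟩ := h
  rw [List.pairwise_append] at hp
  obtain ⟨hp1, hp2, hp3⟩ := hp
  constructor
  · rw [List.pairwise_append]
    refine ⟨?_, ?_, ?_⟩
    · rw [List.pairwise_map]
      exact hp1.imp fun h => rmv_mono s h.subset
    · rw [List.pairwise_cons]
      refine ⟨?_, hp2.imp fun h => h.subset⟩
      intro a ha
      rcases List.mem_cons.1 ha with rfl | ha
      · exact rmv_sub s a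
      · exact (rmv_sub s z).trans ((List.pairwise_cons.1 hp2).1 a ha).subset
    · intro a ha b hb
      obtain ⟨a', ha', rfl⟩ := List.mem_map.1 ha
      rcases List.mem_cons.1 hb with rfl | hb
      · exact rmv_mono s (hp3 a' ha' z List.mem_cons_self).subset
      · exact (rmv_sub s a').trans (hp3 a' ha' b hb).subset
  · intro I hI
    rcases List.mem_append.1 hI with hI | hI
    · obtain ⟨J, hJ, rfl⟩ := List.mem_map.1 hI
      have h1 := hm J (List.mem_append_left _ hJ)
      exact ⟨h1.1.subset (rmv_sub s J), (rmv_sub s J).trans h1.2⟩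
    · rcases List.mem_cons.1 hI with rfl | hI
      · have h1 := hm z (List.mem_append_right _ List.mem_cons_self)
        exact ⟨h1.1.subset (rmv_sub s z), (rmv_sub s z).trans h1.2⟩
      · exact hm I (List.mem_append_right _ hI)

/-- the prism operator of a cochain is invariant under the letters different from `s` of the first member -/
theorem pr_inv {L : LS G V} {n : ℕ} {φ : V → List (Set Λ) → F} (h : Coch L A (n + 2) φ) (w : V)
    (x : Set Λ) (l : List (Set Λ)) (hn : l.length = n + 1) (t : Λ) (ht : t ∈ rmv s x) :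
    Pr (rmv s) (hat G A (φ (L.τ t w))) (x :: l) = Pr (rmv s) (hat G A (φ w)) (x :: l) := by
  refine Pr_congr _ fun l1 y l2 hl => ?_
  cases l1 with
  | nil =>
    simp only [List.nil_append, List.cons.injEq] at hl
    obtain ⟨rfl, rfl⟩ := hl
    rw [List.map_nil, List.nil_append]
    exact h.hat w (rmv s x) (x :: l) (by simp [hn]) t ht
  | cons x' l1 =>
    simp only [List.cons_append, List.cons.injEq] at hl
    obtain ⟨rfl, rfl⟩ := hl
    rw [List.map_cons, List.cons_append]
    refine h.hat w (rmv s x) _ ?_ t ht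
    simp only [List.length_append, List.length_map, List.length_cons] at hn ⊢
    omega

theorem vp_self (L : LS G V) {ε : V → Bool} (hε : ∀ v, ε (L.τ s v) = !ε v) (v : V) :
    vp L s ε (L.τ s v) = vp L s ε v := by
  unfold vp
  rw [hε, L.inv]
  cases ε v <;> simp

theorem vp_adj (L : LS G V) {ε : V → Bool} {t : Λ} (hε : ∀ v, ε (L.τ t v) = ε v) (h : G.Adj s t) (v : V) :
    vp L s ε (L.τ t v) = L.τ t (vp L s ε v) := by
  unfold vp
  rw [hε]
  cases ε v
  · simp [L.com s t h]
  · simp

/-- `φ` at the positive point and at the point -/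
theorem vp_coch {L : LS G V} {n : ℕ} {φ : V → List (Set Λ) → F} (h : Coch L A n φ) (ε : V → Bool) (v : V)
    (x : Set Λ) (l : List (Set Λ)) (hl : Fl G A (x :: l)) (hn : l.length = n) (hs : s ∈ x) :
    φ (vp L s ε v) (x :: l) = φ v (x :: l) := by
  unfold vp
  split_ifs
  · rfl
  · exact h v x l hl hn s hs

theorem dop_cons (L : LS G V) (ε : V → Bool) (φ : V → List (Set Λ) → F) (v : V) (x : Set Λ)
    (l : List (Set Λ)) (w : V) (hw1 : s ∈ x → w = vp L s ε v) (hw2 : s ∉ x → w = v) :
    Dop L A s ε φ v (x :: l) = Pr (rmv s) (hat G A (φ w)) (x :: l) := by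
  rw [Dop]
  by_cases h : s ∈ x
  · rw [if_pos h, hw1 h]
  · rw [if_neg h, hw2 h]

end GSB

open GSB in
theorem gsb_thm : Stmt_HAT → Stmt_GSB := by
  intro hat_thm Λ G A s F _ n _ V L ε hε1 hε2 φ hφ hc hs
  constructor
  · -- the pushing operator gives a cochain
    intro v x l hl hn t ht
    have hcl := (hl.2 x List.mem_cons_self).1
    by_cases hsx : s ∈ x
    · rw [dop_cons L ε φ (L.τ t v) x l (vp L s ε (L.τ t v)) (fun _ => rfl) (fun h => absurd hsx h),
        dop_cons L ε φ v x l (vp L s ε v) (fun _ => rfl) (fun h => absurd hsx h)]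
      by_cases hts : t = s
      · subst hts
        rw [vp_self L hε2]
      · rw [vp_adj L (hε1 t hts) (hcl hsx ht (Ne.symm hts))]
        exact pr_inv hφ _ x l hn t (mem_rmv ht hts)
    · rw [dop_cons L ε φ (L.τ t v) x l (L.τ t v) (fun h => absurd h hsx) (fun _ => rfl),
        dop_cons L ε φ v x l v (fun h => absurd h hsx) (fun _ => rfl)]
      have hts : t ≠ s := fun h => hsx (h ▸ ht)
      exact pr_inv hφ _ x l hn t (mem_rmv ht hts)
  · intro v l hl hn
    match l, hl, hn with
    | x :: y :: l, hl, hn =>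
      -- the point for the first member
      obtain ⟨w, hw1, hw2⟩ : ∃ w : V, (s ∈ x → w = vp L s ε v) ∧ (s ∉ x → w = v) := by
        by_cases h : s ∈ x
        · exact ⟨vp L s ε v, fun _ => rfl, fun h' => absurd h h'⟩
        · exact ⟨v, fun h' => absurd h' h, fun _ => rfl⟩
      obtain ⟨w', hw1', hw2'⟩ : ∃ w : V, (s ∈ y → w = vp L s ε v) ∧ (s ∉ y → w = v) := by
        by_cases h : s ∈ y
        · exact ⟨vp L s ε v, fun _ => rfl, fun h' => absurd h h'⟩
        · exact ⟨v, fun h' => absurd h' h, fun _ => rfl⟩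
      have e1 : del (Dop L A s ε φ v) (x :: y :: l) =
          Pr (rmv s) (hat G A (φ w')) (y :: l) - Pr (rmv s) (hat G A (φ w)) (y :: l) +
            del (Pr (rmv s) (hat G A (φ w))) (x :: y :: l) := by
        rw [del_cons _ x (y :: l), del_cons (Pr (rmv s) (hat G A (φ w))) x (y :: l),
          dop_cons L ε φ v y l w' hw1' hw2']
        have : (fun l' => Dop L A s ε φ v (x :: l')) =
            fun l' => Pr (rmv s) (hat G A (φ w)) (x :: l') := by
          funext l'
          exact dop_cons L ε φ v x l' w hw1 hw2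
        rw [this]
        abel
      have e2 := prism (rmv s) (hat G A (φ w)) (x :: y :: l)
      have e3 : Pr (rmv s) (del (hat G A (φ w))) (x :: y :: l) = 0 := by
        refine Pr_eq_zero _ fun l1 z l2 hz => ?_
        refine hat_thm Λ G A F (n + 4) (φ w) (fun m hm hmn => hc w m hm (by omega)) _
          (wk_prism (hz ▸ hl)) ?_
        have h5 := congrArg List.length hz
        rw [hn] at h5
        simp only [List.length_append, List.length_map, List.length_cons] at h5 ⊢
        omega
      have e4 : hat G A (φ w) ((x :: y :: l).map (rmv s)) = 0 := by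
        by_cases hf : Fl G A ((x :: y :: l).map (rmv s))
        · rw [hat_fl _ hf]
          refine hs w _ ⟨hf.1, fun I hI => ⟨(hf.2 I hI).1, ?_⟩⟩ (by rw [List.length_map, hn])
          obtain ⟨J, hJ, rfl⟩ := List.mem_map.1 hI
          exact fun a ha => ⟨(hf.2 _ hI).2 ha, ha.2⟩
        · exact hat_not _ hf
      have e5 : hat G A (φ w) (x :: y :: l) = φ v (x :: y :: l) := by
        rw [hat_fl _ hl]
        by_cases hsx : s ∈ x
        · rw [hw1 hsx]
          exact vp_coch hφ ε v x (y :: l) hl (by simp only [List.length_cons] at hn ⊢; omega) hsx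
        · rw [hw2 hsx]
      rw [e3, e4, e5, add_zero, sub_zero] at e2
      rw [e1, e2, add_comm]
      congr 1
      have hxy : x ⊂ y := hl.ss List.mem_cons_self
      rw [kapp]
      by_cases hsx : s ∈ x
      · rw [hw1 hsx, hw1' (hxy.subset hsx), sub_self, if_neg (fun h => h.2.1 hsx)]
      · by_cases hsy : s ∈ y
        · rw [hw2 hsx, hw1' hsy]
          cases hv : ε v
          · rw [if_pos ⟨rfl, hsx, hsy⟩, kap, L.inv]
            have : vp L s ε v = L.τ s v := by unfold vp; rw [hv]; simp
            rw [this]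
          · rw [if_neg (fun h => by simp at h)]
            have : vp L s ε v = v := by unfold vp; rw [hv]; simp
            rw [this, sub_self]
        · rw [hw2 hsx, hw2' hsy, sub_self, if_neg (fun h => hsy h.2.2)]

end Pool.CS
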