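import Pool.Agent.Work.MP_64ea0f_cs.InterfaceD

set_option autoImplicit false

/-! # GSD: killing the remaining cocycle -/

namespace Pool.CS

namespace GSD

variable {Λ : Type} {G : SimpleGraph Λ} {A : Set Λ} {s : Λ} {F : Type} [AddCommGroup F] {V : Type}

/-- the letters of `A` adjacent to `s` -/
abbrev lk (G : SimpleGraph Λ) (A : Set Λ) (s : Λ) : Set Λ := {b ∈ A | G.Adj s b}

theorem mem_all {l : List (Set Λ)} {b : Set Λ} (h : Fl G A (b :: l)) (hs : s ∈ b) :
    ∀ I ∈ b :: l, s ∈ I := by
  intro I hI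
  rcases List.mem_cons.1 hI with rfl | hI
  · exact hs
  · exact (h.ss hI).subset hs

theorem rmv_ssub {x y : Set Λ} (h : x ⊂ y) (hx : s ∈ x) : rmv s x ⊂ rmv s y := by
  rw [Set.ssubset_iff_subset_ne]
  refine ⟨fun a ha => ⟨h.subset ha.1, ha.2⟩, fun he => ?_⟩
  apply h.2
  intro a ha
  by_cases has : a = s
  · rw [has]; exact hx
  · have : a ∈ rmv s y := ⟨ha, has⟩
    rw [← he] at this
    exact this.1

theorem fl_lk {l : List (Set Λ)} (h : Fl G A l) (hs : ∀ I ∈ l, s ∈ I) :
    Fl G (lk G A s) (l.map (rmv s)) := by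
  constructor
  · rw [List.pairwise_map]
    exact h.1.imp_of_mem fun ha _ hab => rmv_ssub hab (hs _ ha)
  · intro I hI
    obtain ⟨J, hJ, rfl⟩ := List.mem_map.1 hI
    have h1 := h.2 J hJ
    refine ⟨h1.1.subset (fun a ha => ha.1), fun a ha => ⟨h1.2 ha.1, ?_⟩⟩
    exact h1.1 (hs J hJ) ha.1 (fun h => ha.2 h.symm)

theorem map_ins {l : List (Set Λ)} (hs : ∀ I ∈ l, s ∈ I) : (l.map (rmv s)).map (insert s) = l := by
  rw [List.map_map]
  conv_rhs => rw [← List.map_id l]
  refine List.map_congr_left fun I hI => ?_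
  change insert s (rmv s I) = I
  ext a
  by_cases has : a = s
  · subst has; exact ⟨fun _ => hs I hI, fun _ => Or.inl rfl⟩
  · exact ⟨fun h => (h.resolve_left has).1, fun h => Or.inr ⟨h, has⟩⟩

open Classical in
/-- the cochain -/
noncomputable def Om (s : Λ) (e : Bool) (W : List (Set Λ) → F) : List (Set Λ) → F
  | a :: b :: l => if e = false ∧ s ∉ a ∧ s ∈ b then W ((b :: l).map (rmv s)) else 0
  | _ => 0

theorem om_pos {e : Bool} (W : List (Set Λ) → F) {a b : Set Λ} (l : List (Set Λ)) (h1 : e = false) (h2 : s ∉ a)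
    (h3 : s ∈ b) : Om s e W (a :: b :: l) = W ((b :: l).map (rmv s)) := by
  rw [Om, if_pos ⟨h1, h2, h3⟩]

theorem om_neg {e : Bool} (W : List (Set Λ) → F) {a b : Set Λ} (l : List (Set Λ))
    (h : ¬ (e = false ∧ s ∉ a ∧ s ∈ b)) : Om s e W (a :: b :: l) = 0 := by
  rw [Om, if_neg h]

theorem om_true (W : List (Set Λ) → F) (l : List (Set Λ)) : Om s true W l = 0 := by
  match l with
  | [] => rfl
  | [_] => rfl
  | a :: b :: l => exact om_neg W l (fun h => by simp at h)

theorem om_mem {e : Bool} (W : List (Set Λ) → F) {a : Set Λ} (h : s ∈ a) (l : List (Set Λ)) :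
    Om s e W (a :: l) = 0 := by
  match l with
  | [] => rfl
  | b :: l => exact om_neg W l (fun h' => h'.2.1 h)

/-- the formula for the coboundary -/
theorem del_om {e : Bool} (W : List (Set Λ) → F) {a b c : Set Λ} {l : List (Set Λ)}
    (hl : Fl G A (a :: b :: c :: l)) :
    (e = false ∧ s ∉ a ∧ s ∈ b → del (Om s e W) (a :: b :: c :: l) =
      -del W ((b :: c :: l).map (rmv s))) ∧
    (¬ (e = false ∧ s ∉ a ∧ s ∈ b) → del (Om s e W) (a :: b :: c :: l) = 0) := by
  constructor
  · rintro ⟨he, ha, hb⟩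
    have hall := mem_all hl.tail hb
    rw [del_cons, om_mem W hb, zero_sub, ← del_map]
    congr 1
    refine del_congr fun m hm hmn => ?_
    match m, hm, hmn with
    | p :: m, hm, hmn =>
      exact om_pos W m he ha (hall p (hm.subset List.mem_cons_self))
  · intro h
    cases e with
    | true => exact del_eq_zero fun m _ _ => om_true W m
    | false =>
      by_cases ha : s ∈ a
      · have hall := mem_all hl ha
        refine del_eq_zero fun m hm hmn => ?_
        match m, hm, hmn with
        | p :: m, hm, hmn => exact om_mem W (hall p (hm.subset List.mem_cons_self)) m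
      · have hb : s ∉ b := fun hb => h ⟨rfl, ha, hb⟩
        rw [del_two]
        have h1 : del (fun m => Om s false W (a :: b :: m)) (c :: l) = 0 := by
          refine del_eq_zero fun m _ _ => ?_
          exact om_neg W m (fun h' => hb h'.2.2)
        rw [h1, add_zero, sub_eq_zero]
        by_cases hc : s ∈ c
        · rw [om_pos W l rfl hb hc, om_pos W l rfl ha hc]
        · rw [om_neg W l (fun h' => hc h'.2.2), om_neg W l (fun h' => hc h'.2.2)]

end GSD

open GSD in
theorem gsd_thm : Stmt_PROD → Stmt_GSD := by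
  intro prod_thm Λ G A s F _ n _ hgood V _ L ε hε1 hε2 φ hC hZ
  obtain ⟨V'', hfin, L'', π, hL'', hπs, hπe, ω, hω, hcob⟩ := hgood V (L.rest (lk G A s))
    (fun a ha v => LS.rest_not L ha v) (fun w m => kap L A s φ w (m.map (insert s)))
    (hC.pull (π := fun v => v) (fun a ha v => LS.rest_mem L ha v)) hZ
  obtain ⟨Q, hQ1, hQ2, K, ρ, hK, hρ1, hρ2⟩ := prod_thm Λ G (lk G A s) V V'' L L'' π hπs
    (fun a ha v => by rw [hπe, LS.rest_mem L ha])
  refine ⟨Q, hQ1, hQ2, K, fun x => Om s (ε x.1) (ω (ρ (L.τ s x.1, x.2))), ?_, ?_, ?_⟩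
  · intro a ha q
    exact hK a (fun h => ha h.1) q
  · intro x a l hl hn t ht
    match l, hl, hn with
    | b :: l, hl, hn =>
      change Om s (ε (L.τ t x.1)) (ω (ρ (L.τ s (L.τ t x.1), K.τ t x.2))) (a :: b :: l) =
        Om s (ε x.1) (ω (ρ (L.τ s x.1, x.2))) (a :: b :: l)
      by_cases hsa : s ∈ a
      · rw [om_mem _ hsa, om_mem _ hsa]
      · have hts : t ≠ s := fun h => hsa (h ▸ ht)
        rw [hε1 t hts]
        by_cases hsb : s ∈ b
        · cases hv : ε x.1 with
          | true => rw [om_true, om_true]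
          | false =>
            rw [om_pos _ l rfl hsa hsb, om_pos _ l rfl hsa hsb]
            have hab : a ⊂ b := hl.ss List.mem_cons_self
            have hb := hl.2 b (List.mem_cons_of_mem _ List.mem_cons_self)
            have htb : t ∈ b := hab.subset ht
            have hadj : G.Adj s t := hb.1 hsb htb (Ne.symm hts)
            have htB : t ∈ lk G A s := ⟨hb.2 htb, hadj⟩
            have hρ := hρ2 t htB (L.τ s x.1, x.2)
            change ρ (L.τ t (L.τ s x.1), K.τ t x.2) = _ at hρ
            rw [L.com s t hadj, hρ, List.map_cons]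
            have hf := fl_lk hl.tail (mem_all hl.tail hsb)
            rw [List.map_cons] at hf
            refine hω (ρ (L.τ s x.1, x.2)) (rmv s b) (l.map (rmv s)) hf ?_ t ⟨htb, hts⟩
            simpa using hn
        · rw [om_neg _ l (fun h => hsb h.2.2), om_neg _ l (fun h => hsb h.2.2)]
  · intro x l hl hn
    match l, hl, hn with
    | a :: b :: c :: l, hl, hn =>
      have h1 := del_om (s := s) (e := ε x.1) (ω (ρ (L.τ s x.1, x.2))) hl
      change del (Om s (ε x.1) (ω (ρ (L.τ s x.1, x.2)))) (a :: b :: c :: l) = _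
      rw [kapp]
      by_cases h : ε x.1 = false ∧ s ∉ a ∧ s ∈ b
      · rw [h1.1 h, if_pos h]
        have hall := mem_all hl.tail h.2.2
        have h2 := hcob (ρ (L.τ s x.1, x.2)) _ (fl_lk hl.tail hall) (by simpa using hn)
        rw [← h2]
        change -kap L A s φ (π (ρ (L.τ s x.1, x.2))) (((b :: c :: l).map (rmv s)).map (insert s)) = _
        rw [hρ1, map_ins hall]
      · rw [h1.2 h, if_neg h, neg_zero]

end Pool.CS
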