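import Pool.Agent.Work.MP_64ea0f_cs_helper67.CSU

set_option autoImplicit false

namespace Pool.CS

namespace ESN67

variable {D : Rd}

theorem comm_s {s t : D.S} (h : D.k s t = 0) : D.σ s * D.σ t = D.σ t * D.σ s := by
  have h' : D.k t s = 0 := by rw [D.symm]; exact h
  by_cases hst : s = t
  · rw [hst]
  have hρ : D.ρ (D.σ s * D.σ t) = D.ρ (D.σ t * D.σ s) := by
    refine LinearMap.ext fun v => ?_
    rw [map_mul, map_mul, Module.End.mul_apply, Module.End.mul_apply, D.refl, D.refl, D.refl, D.refl,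
      CSU67.bform_single, CSU67.bform_single, CSU67.bform_single, CSU67.bform_single]
    have key : ∀ (a b : D.S) (c : ℝ), D.k b a = 0 →
        ∑ x, (v - c • (Pi.single b 1 : D.S → ℝ)) x * D.k x a = ∑ x, v x * D.k x a := by
      intro a b c hba
      have h2 : ∀ x, (v - c • (Pi.single b 1 : D.S → ℝ)) x * D.k x a
          = v x * D.k x a - c * ((Pi.single b 1 : D.S → ℝ) x * D.k x a) := by
        intro x
        simp only [Pi.sub_apply, Pi.smul_apply, smul_eq_mul]
        ring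
      simp only [h2]
      rw [Finset.sum_sub_distrib, ← Finset.mul_sum]
      have h3 : ∑ x, (Pi.single b 1 : D.S → ℝ) x * D.k x a = 0 := by
        refine Finset.sum_eq_zero fun x _ => ?_
        by_cases hx : x = b
        · rw [hx, hba, mul_zero]
        · rw [Pi.single_eq_of_ne hx, zero_mul]
      rw [h3]; ring
    rw [key s t _ h', key t s _ h]
    abel
  have h1 : D.ρ (D.σ s * D.σ t * (D.σ t * D.σ s)⁻¹) = 1 := by
    rw [map_mul, hρ, ← map_mul, mul_inv_cancel, map_one]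
  have h2 : D.σ s * D.σ t * (D.σ t * D.σ s)⁻¹ = 1 := by
    refine D.triv _ (fun a b => ?_)
    rw [h1, Module.End.one_apply]
    by_cases hab : b = a
    · subst hab; simp
    · simp [Pi.single_eq_of_ne hab]
  exact mul_inv_eq_one.1 h2

theorem comm_par {J1 J2 : Set D.S} (h : ∀ s ∈ J1, ∀ t ∈ J2, D.k s t = 0) :
    ∀ p ∈ D.par J1, ∀ q ∈ D.par J2, p * q = q * p := by
  have h1 : ∀ s ∈ J1, ∀ q ∈ D.par J2, D.σ s * q = q * D.σ s := by
    intro s hs q hq
    have : D.par J2 ≤ Subgroup.centralizer {D.σ s} := by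
      unfold Rd.par
      rw [Subgroup.closure_le]
      rintro _ ⟨t, ht, rfl⟩
      rw [SetLike.mem_coe, Subgroup.mem_centralizer_singleton_iff]
      exact (comm_s (h s hs t ht)).symm
    have h2 := this hq
    rw [Subgroup.mem_centralizer_singleton_iff] at h2
    exact h2.symm
  intro p hp q hq
  have : D.par J1 ≤ Subgroup.centralizer {q} := by
    unfold Rd.par
    rw [Subgroup.closure_le]
    rintro _ ⟨s, hs, rfl⟩
    rw [SetLike.mem_coe, Subgroup.mem_centralizer_singleton_iff]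
    exact h1 s hs q hq
  have h2 := this hp
  rw [Subgroup.mem_centralizer_singleton_iff] at h2
  exact h2

theorem split {J1 J2 : Set D.S} (h : ∀ s ∈ J1, ∀ t ∈ J2, D.k s t = 0) (w : D.W)
    (hw : w ∈ D.par (J1 ∪ J2)) : ∃ p ∈ D.par J1, ∃ q ∈ D.par J2, w = p * q := by
  have hc := comm_par h
  unfold Rd.par at hw
  induction hw using Subgroup.closure_induction with
  | mem x hx =>
    obtain ⟨t, ht, rfl⟩ := hx
    rcases ht with ht | ht
    · exact ⟨D.σ t, Subgroup.subset_closure ⟨t, ht, rfl⟩, 1, one_mem _, by rw [mul_one]⟩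
    · exact ⟨1, one_mem _, D.σ t, Subgroup.subset_closure ⟨t, ht, rfl⟩, by rw [one_mul]⟩
  | one => exact ⟨1, one_mem _, 1, one_mem _, by rw [mul_one]⟩
  | mul x y _ _ hx hy =>
    obtain ⟨p, hp, q, hq, rfl⟩ := hx
    obtain ⟨p', hp', q', hq', rfl⟩ := hy
    refine ⟨p * p', mul_mem hp hp', q * q', mul_mem hq hq', ?_⟩
    have h1 := hc p' hp' q hq
    rw [mul_assoc, ← mul_assoc q, ← h1]
    group
  | inv x _ hx =>
    obtain ⟨p, hp, q, hq, rfl⟩ := hx
    refine ⟨p⁻¹, inv_mem hp, q⁻¹, inv_mem hq, ?_⟩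
    rw [hc p hp q hq, mul_inv_rev]

theorem cp_one (J : Set D.S) : D.cp 1 J = D.par J := by
  ext x
  simp [Rd.cp, Subgroup.mem_map]

end ESN67

theorem esn_thm : Stmt_PAR → Stmt_RNK → Stmt_ESN := by
  intro _ hRNK D J h hE K hKJ hKne hK hfin
  have hJ : K ∪ (J \ K) = J := Set.union_diff_cancel hKJ
  obtain ⟨p, hp, q, hq, hpq⟩ := ESN67.split (J1 := K) (J2 := J \ K) hK h (by rw [hJ]; exact hE.1)
  have hc : Commute p q := ESN67.comm_par hK p hp q hq
  set n := Nat.card (D.par K) with hn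
  have hn0 : 0 < n := Nat.card_pos
  have hpn : p ^ n = 1 := by
    have h1 : (⟨p, hp⟩ : D.par K) ^ n = 1 := pow_card_eq_one'
    exact congrArg Subtype.val h1
  have hh : h ^ n ∈ D.cp 1 (J \ K) := by
    rw [ESN67.cp_one, hpq, hc.mul_pow, hpn, one_mul]
    exact pow_mem hq n
  have hle := hE.2 n hn0 1 (J \ K) hh
  rw [← ESN67.cp_one J] at hle
  have h1 := (hRNK D 1 1 J (J \ K) hle).1
  have h2 : (J \ K).ncard < J.ncard := by
    obtain ⟨s, hs⟩ := hKne
    refine Set.ncard_lt_ncard ?_ (Set.toFinite _)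
    refine ⟨Set.sdiff_subset, fun hsub => ?_⟩
    exact (hsub (hKJ hs)).2 hs
  omega

end Pool.CS
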