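import Pool.Agent.Work.MP_64ea0f_cs.InterfaceG4

set_option autoImplicit false

/-! # F3Y: no commuting orthogonal elements, general case (adapted from F3 of helper63) -/

namespace Pool.CS

namespace F3Yaux

/-- a generator adjacent to all letters of a word commutes with the word -/
theorem rg_wp_comm {Λ : Type} (G : SimpleGraph Λ) (b : Λ) (w : List Λ) (h : ∀ s ∈ w, G.Adj b s) :
    rg G b * wp G w = wp G w * rg G b := by
  induction w with
  | nil => rw [wp_nil, mul_one, one_mul]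
  | cons s w ih =>
    rw [wp_cons, ← mul_assoc, rg_comm (h s (List.mem_cons_self ..)), mul_assoc,
      ih (fun t ht => h t (List.mem_cons_of_mem _ ht)), mul_assoc]

theorem rsub_wp_comm {Λ : Type} (G : SimpleGraph Λ) (w : List Λ) {a : RC G}
    (ha : a ∈ rsub G {b | ∀ s ∈ w, G.Adj b s}) : a * wp G w = wp G w * a := by
  rw [rsub] at ha
  induction ha using Subgroup.closure_induction with
  | mem x hx =>
    obtain ⟨b, hb, rfl⟩ := hx
    exact rg_wp_comm G b w hb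
  | one => rw [one_mul, mul_one]
  | mul x y _ _ hx hy => rw [mul_assoc, hy, ← mul_assoc, hx, mul_assoc]
  | inv x _ hx =>
    have h1 : x⁻¹ * (x * wp G w) * x⁻¹ = x⁻¹ * (wp G w * x) * x⁻¹ := by rw [hx]
    rw [← mul_assoc, inv_mul_cancel, one_mul, mul_assoc, mul_assoc, mul_inv_cancel, mul_one] at h1
    exact h1.symm

theorem wp_wp_comm {Λ : Type} (G : SimpleGraph Λ) (w l : List Λ) (h : ∀ s ∈ w, ∀ t ∈ l, G.Adj s t) :
    wp G w * wp G l = wp G l * wp G w := by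
  induction w with
  | nil => rw [wp_nil, mul_one, one_mul]
  | cons s w ih =>
    rw [wp_cons, mul_assoc, ih (fun s' hs' => h s' (List.mem_cons_of_mem _ hs')), ← mul_assoc,
      rg_wp_comm G s l (h s (List.mem_cons_self ..)), mul_assoc]

theorem ess_pow (D : Rd) (J : Set D.S) (h : D.W) (hE : D.Ess J h) (m : ℕ) (hm : 0 < m) :
    D.Ess J (h ^ m) := by
  refine ⟨(D.par J).pow_mem hE.1 m, ?_⟩
  intro n hn g J' hg
  rw [← pow_mul] at hg
  exact hE.2 (m * n) (Nat.mul_pos hm hn) g J' hg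

/-- repeated words -/
def rep {Λ : Type} (w : List Λ) : ℕ → List Λ
  | 0 => []
  | n + 1 => w ++ rep w n

theorem wp_rep {Λ : Type} (G : SimpleGraph Λ) (w : List Λ) (n : ℕ) : wp G (rep w n) = wp G w ^ n := by
  induction n with
  | zero => simp [rep, wp_nil]
  | succ n ih => rw [rep, wp_append, ih, pow_succ']

theorem mem_rep {Λ : Type} {w : List Λ} {n : ℕ} {s : Λ} (h : s ∈ rep w n) : s ∈ w := by
  induction n with
  | zero => simp [rep] at h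
  | succ n ih =>
    rw [rep, List.mem_append] at h
    exact h.elim id ih

theorem ρ_inj (D : Rd) (u : D.W) {v v' : D.V} (h : D.ρ u v = D.ρ u v') : v = v' := by
  have h1 := congrArg (D.ρ u⁻¹) h
  rwa [← Module.End.mul_apply, ← Module.End.mul_apply, ← map_mul, inv_mul_cancel, map_one] at h1

theorem ρ_mul (D : Rd) (u u' : D.W) (v : D.V) : D.ρ u (D.ρ u' v) = D.ρ (u * u') v := by
  rw [map_mul]; rfl

/-- a translated root crosses every vertex -/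
theorem crossing (hTRN : Stmt_TRN) (D : Rd) (F : D.W) {γ : D.V} (hγ : γ ∈ D.Rt) (hT : D.Trn F γ)
    {x : Set D.V} (hx : D.Vx x) (hBAS3 : ∀ u : D.W, ∀ φ ∈ D.Rt, D.ρ u φ ∈ D.Rt) :
    ∃ (j m : ℕ), D.ρ (F ^ j * F⁻¹ ^ m) γ ∉ x ∧ D.ρ (F ^ (j + 1) * F⁻¹ ^ m) γ ∈ x := by
  obtain ⟨hd, hfar, -⟩ := hTRN D F γ hγ hT
  obtain ⟨n0, hn0⟩ := hfar 1
  have hγ0 : γ ≠ 0 := by
    rintro rfl
    have h4 := hT 1 one_pos
    rw [map_zero] at h4
    exact h4.2 rfl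
  have hne0 : ∀ u : D.W, D.ρ u γ ≠ 0 := by
    intro u h
    apply hγ0
    apply ρ_inj D u
    rw [h, map_zero]
  have hneg : ∀ v : D.V, v ≠ 0 → v ∈ D.Ps → -v ∉ D.Ps := by
    intro v hv h1 h2
    apply hv
    funext t
    have h3 := h1.2 t
    have h4 := h2.2 t
    rw [Pi.neg_apply] at h4
    rw [Pi.zero_apply]
    linarith
  -- far in the positive direction
  have hA : ∃ n1, D.ρ (F ^ n1) γ ∈ x := by
    by_contra hcon
    push Not at hcon
    have hmap : Set.MapsTo (fun n : ℕ => -D.ρ (F ^ (n0 + n)) γ) Set.univ (x \ D.Ps) := by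
      intro n _
      have h1 := (hn0 (n0 + n) (Nat.le_add_right _ _)).1
      rw [one_mul] at h1
      refine ⟨?_, hneg _ (hne0 _) h1⟩
      rcases hx.tot _ (hBAS3 (F ^ (n0 + n)) γ hγ) with h2 | h2
      · exact absurd h2 (hcon _)
      · exact h2
    have hinj : Set.InjOn (fun n : ℕ => -D.ρ (F ^ (n0 + n)) γ) Set.univ := by
      intro m _ n _ hmn
      by_contra hne
      exact hd (n0 + m) (n0 + n) (by omega) (neg_injective hmn)
    exact Set.infinite_univ (Set.Finite.of_injOn hmap hinj hx.fin)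
  have hB : ∃ n2, D.ρ (F⁻¹ ^ n2) γ ∉ x := by
    by_contra hcon
    push Not at hcon
    have hmap : Set.MapsTo (fun n : ℕ => D.ρ (F⁻¹ ^ (n0 + n)) γ) Set.univ (x \ D.Ps) := by
      intro n _
      have h1 := (hn0 (n0 + n) (Nat.le_add_right _ _)).2
      rw [one_mul] at h1
      refine ⟨hcon _, fun h2 => hneg _ (hne0 _) h2 h1⟩
    have hinj : Set.InjOn (fun n : ℕ => D.ρ (F⁻¹ ^ (n0 + n)) γ) Set.univ := by
      intro m _ n _ hmn
      by_contra hne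
      have h1 : D.ρ (F⁻¹ ^ (n0 + m)) γ = D.ρ (F⁻¹ ^ (n0 + n)) γ := hmn
      have h2 := congrArg (D.ρ (F ^ (n0 + m + (n0 + n)))) h1
      rw [ρ_mul, ρ_mul] at h2
      have e1 : F ^ (n0 + m + (n0 + n)) * F⁻¹ ^ (n0 + m) = F ^ (n0 + n) := by
        rw [add_comm (n0 + m), pow_add, mul_assoc, inv_pow, mul_inv_cancel, mul_one]
      have e2 : F ^ (n0 + m + (n0 + n)) * F⁻¹ ^ (n0 + n) = F ^ (n0 + m) := by
        rw [pow_add, mul_assoc, inv_pow, mul_inv_cancel, mul_one]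
      rw [e1, e2] at h2
      exact hd (n0 + n) (n0 + m) (by omega) h2
    exact Set.infinite_univ (Set.Finite.of_injOn hmap hinj hx.fin)
  obtain ⟨n1, hn1⟩ := hA
  obtain ⟨n2, hn2⟩ := hB
  -- discrete intermediate value
  have hex : ∃ j, D.ρ (F ^ j * F⁻¹ ^ n2) γ ∈ x := by
    refine ⟨n1 + n2, ?_⟩
    have e : F ^ (n1 + n2) * F⁻¹ ^ n2 = F ^ n1 := by
      rw [pow_add, mul_assoc, inv_pow, mul_inv_cancel, mul_one]
    rw [e]
    exact hn1
  classical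
  have hs := Nat.find_spec hex
  have hm : ∀ j < Nat.find hex, D.ρ (F ^ j * F⁻¹ ^ n2) γ ∉ x := fun j hj => Nat.find_min hex hj
  have hpos : Nat.find hex ≠ 0 := by
    intro h0
    rw [h0, pow_zero, one_mul] at hs
    exact hn2 hs
  obtain ⟨j, hj⟩ := Nat.exists_eq_succ_of_ne_zero hpos
  refine ⟨j, n2, hm j (by omega), ?_⟩
  rw [hj] at hs
  exact hs

/-- F3G for powers -/
theorem grid (hTRN : Stmt_TRN) (hF3G : Stmt_F3G) (D : Rd) (H : Subgroup D.W) (hH : D.Deep H)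
    (L : LS (D.lg H) D.X) (hL : D.IsFlip H L) (b : D.X) (κ : D.X → RC (D.lg H)) (c : H →* RC (D.lg H))
    (hdev : D.Dev H L b κ c) (p q : H) (a : RC (D.lg H)) (u v : List (D.Lb H))
    (hp : c p = a * wp (D.lg H) u * a⁻¹) (hq : c q = a * wp (D.lg H) v * a⁻¹)
    (hadj : ∀ s ∈ u, ∀ t ∈ v, (D.lg H).Adj s t) (hpq : p.1 * q.1 = q.1 * p.1)
    (hBAS3 : ∀ u : D.W, ∀ φ ∈ D.Rt, D.ρ u φ ∈ D.Rt) :
    ∀ N : ℕ, 0 < N → ∀ γ ∈ D.Rt, D.Trn (p.1 ^ N) γ → D.ρ q.1 γ = γ := by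
  intro N _ γ hγ hT
  obtain ⟨j, m, hj1, hj2⟩ := crossing hTRN D (p.1 ^ N) hγ hT (L.r b a).2 hBAS3
  set F := p.1 ^ N with hF
  have hcp : c (p ^ N) = a * wp (D.lg H) (rep u N) * a⁻¹ := by
    rw [map_pow, hp, wp_rep, conj_pow]
  have hnot : D.ρ (F ^ (j + 1) * F⁻¹ ^ m) γ ∉ D.act (p ^ N : H).1 (L.r b a).1 := by
    rintro ⟨y, hy, hye⟩
    apply hj1
    have e : D.ρ (F ^ (j + 1) * F⁻¹ ^ m) γ = D.ρ F (D.ρ (F ^ j * F⁻¹ ^ m) γ) := by
      rw [ρ_mul, ← mul_assoc, ← pow_succ']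
    have e2 : ((p ^ N : H) : D.W) = F := by rw [Subgroup.coe_pow]
    rw [e2, e] at hye
    rw [← ρ_inj D F hye]
    exact hy
  have h1 := hF3G D H hH L hL b κ c hdev (p ^ N) q a (rep u N) v hcp hq
    (fun s hs t ht => hadj s (mem_rep hs) t ht) _ hj2 hnot
  have hcF : q.1 * (F ^ (j + 1) * F⁻¹ ^ m) = (F ^ (j + 1) * F⁻¹ ^ m) * q.1 := by
    have hc0 : Commute q.1 F := by
      rw [hF]
      exact (Commute.pow_right (show Commute q.1 p.1 from hpq.symm) N)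
    have hc1 : Commute q.1 (F ^ (j + 1) * F⁻¹ ^ m) :=
      (hc0.pow_right (j + 1)).mul_right ((hc0.inv_right).pow_right m)
    exact hc1
  rw [ρ_mul, hcF, ← ρ_mul] at h1
  exact ρ_inj D _ h1

end F3Yaux

open F3Yaux in
theorem f3y_thm : Stmt_BAS → Stmt_AX → Stmt_VX1 → Stmt_CMP → Stmt_CSU → Stmt_TRN → Stmt_F3CY → Stmt_F3H →
    Stmt_F3G → Stmt_F3J → Stmt_LBF → Stmt_F3Y := by
  intro hBAS hAX hV hCMP hCSU hTRN hF3C hF3H hF3G hF3J hLBF D H hH L hL b κ c hdev hcinj J h a w hE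
    hc hw g hgJ hgI
  by_contra hg1
  obtain ⟨hVP, hVact, h1, hm, _, hmem', _, _, _, _, hfin⟩ := hV D
  have hBAS3 : ∀ u : D.W, ∀ φ ∈ D.Rt, D.ρ u φ ∈ D.Rt := fun u φ hφ =>
    (hBAS D).2.2.2.2.2.2.2.1 φ hφ u
  have hfi : Finite (D.Lb H) := hLBF D H hH.fin
  obtain ⟨a1, ha1, l, hlI, hg2, hl, _⟩ := hAX (D.Lb H) (D.lg H) _ _ hgI
  obtain ⟨a2, ha2⟩ : ∃ a2, a2 = a * a1 := ⟨_, rfl⟩
  have hcomm := rsub_wp_comm (D.lg H) w ha1
  have hch : c (h ^ 2) = a2 * wp (D.lg H) w * a2⁻¹ := by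
    rw [hc, ha2, mul_inv_rev]
    calc a * wp (D.lg H) w * a⁻¹ = a * (wp (D.lg H) w * a1 * a1⁻¹) * a⁻¹ := by
          rw [mul_assoc (wp (D.lg H) w), mul_inv_cancel, mul_one]
      _ = a * (a1 * wp (D.lg H) w * a1⁻¹) * a⁻¹ := by rw [hcomm]
      _ = _ := by group
  have hcg : c (g ^ 2) = a2 * wp (D.lg H) l * a2⁻¹ := by
    rw [ha2, mul_inv_rev, map_pow]
    have e1 : c g ^ 2 = a * (a⁻¹ * c g * a) ^ 2 * a⁻¹ := by
      rw [pow_two, pow_two]
      group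
    rw [e1, hg2]
    group
  have hadj : ∀ s ∈ w, ∀ t ∈ l, (D.lg H).Adj s t := fun s hs t ht => (hlI t ht s hs).symm
  obtain ⟨x0, hx0⟩ : ∃ x0, x0 = L.r b a2 := ⟨_, rfl⟩
  -- `g ^ 2` moves `x0`
  have hg2ne : g ^ 2 ≠ 1 := by
    intro h2
    apply hg1
    apply Subtype.ext
    have h3 : g.1 ^ 2 = 1 := by
      have := congrArg Subtype.val h2
      simpa using this
    exact hH.tf g.1 g.2 2 (by norm_num) h3
  have hmove : ¬ x0.1 ⊆ D.act (g ^ 2).1 x0.1 := by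
    intro h2
    have h3 : x0.1 = D.act (g ^ 2).1 x0.1 :=
      (hfin x0.1 x0.2 _ (hVact x0.1 x0.2 (g ^ 2).1)).2.2 h2
    have h4 := hdev.hol (g ^ 2) x0 x0 h3
    have h5 : c (g ^ 2) = 1 := by
      have h6 : 1 * κ x0 = c (g ^ 2) * κ x0 := by rw [one_mul]; exact h4
      exact (mul_right_cancel h6).symm
    apply hg2ne
    apply hcinj
    rw [h5, map_one]
  obtain ⟨β, hβx, hβg⟩ := Set.not_subset.mp hmove
  have hβR : β ∈ D.Rt := x0.2.sub hβx
  have hTβ : D.Trn (g ^ 2).1 β := by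
    rw [hx0] at hβx hβg
    exact hF3H D H hH L hL b κ c hdev (g ^ 2) a2 l hcg hl β hβx hβg
  have hg2J : (g ^ 2).1 ∈ D.par J := by
    rw [Subgroup.coe_pow]
    exact (D.par J).pow_mem hgJ 2
  have hβJ : D.In J β := (hTRN D (g ^ 2).1 β hβR hTβ).2.2 J hg2J
  -- the component
  have hβ0 : ∃ s0, β s0 ≠ 0 := by
    by_contra hcon
    push Not at hcon
    have h3 : β = 0 := funext hcon
    have h4 := hTβ 1 one_pos
    rw [h3, map_zero] at h4
    exact h4.2 rfl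
  obtain ⟨s0, hs0⟩ := hβ0
  have hs0J : s0 ∈ J := by
    by_contra h3
    exact hs0 (hβJ s0 h3)
  obtain ⟨K, hKJ, hs0K, hKc, hKs⟩ := hCMP D J s0 hs0J
  have hβK : D.In K β := by
    rcases hCSU D K (J \ K) hKs β hβR (by rw [Set.union_sdiff_cancel hKJ]; exact hβJ) with h3 | h3
    · exact h3
    · exact absurd (h3 s0 (fun h' => h'.2 hs0K)) hs0
  have hE2 : D.Ess J (h ^ 2).1 := by
    rw [Subgroup.coe_pow]
    exact ess_pow D J h.1 hE 2 (by norm_num)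
  obtain ⟨α, hαx, hαh, hαK⟩ := hF3J D J K (h ^ 2).1 hE2 hKJ ⟨s0, hs0K⟩ hKs x0.1 x0.2
  have hαR : α ∈ D.Rt := x0.2.sub hαx
  have hTα : D.Trn (h ^ 2).1 α := by
    rw [hx0] at hαx hαh
    exact hF3H D H hH L hL b κ c hdev (h ^ 2) a2 w hch hw α hαx hαh
  have hcom : (h ^ 2) * (g ^ 2) = (g ^ 2) * (h ^ 2) := by
    apply hcinj
    rw [map_mul, map_mul, hch, hcg]
    calc a2 * wp (D.lg H) w * a2⁻¹ * (a2 * wp (D.lg H) l * a2⁻¹)
        = a2 * (wp (D.lg H) w * wp (D.lg H) l) * a2⁻¹ := by group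
      _ = a2 * (wp (D.lg H) l * wp (D.lg H) w) * a2⁻¹ := by
          rw [wp_wp_comm (D.lg H) w l hadj]
      _ = _ := by group
  have hcom' : (h ^ 2).1 * (g ^ 2).1 = (g ^ 2).1 * (h ^ 2).1 := congrArg Subtype.val hcom
  exact hF3C D J K (h ^ 2).1 (g ^ 2).1 hE2 hg2J hKJ hKc hKs hcom'
    (grid hTRN hF3G D H hH L hL b κ c hdev (h ^ 2) (g ^ 2) a2 w l hch hcg hadj hcom' hBAS3)
    (grid hTRN hF3G D H hH L hL b κ c hdev (g ^ 2) (h ^ 2) a2 l w hcg hch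
      (fun s hs t ht => (hadj t ht s hs).symm) hcom'.symm hBAS3)
    α hαR β hβR hαK hβK hTα hTβ

end Pool.CS
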