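import Pool.Agent.Work.MP_64ea0f_cs.InterfaceG4

set_option autoImplicit false

/-! # Block NFY (adapted from NFC of helper4) -/

namespace Pool.CS

namespace NFYaux

variable (D : Rd)

lemma B_e (u : D.V) (t : D.S) : D.B u (D.e t) = ∑ r, u r * D.k r t := by
  classical
  unfold Rd.B bform Rd.e
  refine Finset.sum_congr rfl fun r _ => ?_
  rw [Finset.sum_eq_single t]
  · simp
  · intro b _ hb
    simp [Pi.single_eq_of_ne hb]
  · intro h
    exact absurd (Finset.mem_univ t) h

open Classical in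
/-- restriction of a vector to `J` -/
noncomputable def res (J : Set D.S) (v : D.V) : D.V := fun s => if s ∈ J then v s else 0

variable {D}

lemma res_mem {J : Set D.S} {v : D.V} {s : D.S} (h : s ∈ J) : res D J v s = v s := if_pos h

lemma res_not {J : Set D.S} {v : D.V} {s : D.S} (h : s ∉ J) : res D J v s = 0 := if_neg h

lemma res_nonneg {J : Set D.S} {v : D.V} (hv : ∀ t, 0 ≤ v t) (s : D.S) : 0 ≤ res D J v s := by
  by_cases h : s ∈ J
  · rw [res_mem h]; exact hv s
  · rw [res_not h]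

lemma res_ge {J : Set D.S} {v : D.V} (hv : ∀ t, 0 ≤ v t) {s : D.S} (hs : s ∈ J) :
    D.B v (D.e s) ≤ D.B (res D J v) (D.e s) := by
  rw [B_e, B_e]
  refine Finset.sum_le_sum fun r _ => ?_
  by_cases h : r ∈ J
  · rw [res_mem h]
  · rw [res_not h, zero_mul]
    have hrs : r ≠ s := fun h' => h (h' ▸ hs)
    exact mul_nonpos_of_nonneg_of_nonpos (hv r) (D.off r s hrs)

/-- restriction to a component -/
lemma res_comp {J K : Set D.S} {v : D.V} (hKJ : K ⊆ J) (hsep : ∀ s ∈ K, ∀ t ∈ J \ K, D.k s t = 0)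
    {s : D.S} (hs : s ∈ K) : D.B (res D J v) (D.e s) = D.B (res D K v) (D.e s) := by
  rw [B_e, B_e]
  refine Finset.sum_congr rfl fun r _ => ?_
  by_cases h : r ∈ K
  · rw [res_mem h, res_mem (hKJ h)]
  · rw [res_not h, zero_mul]
    by_cases hJ : r ∈ J
    · rw [D.symm r s, hsep s hs r ⟨hJ, h⟩, mul_zero]
    · rw [res_not hJ, zero_mul]

lemma pos_case (hBAS : Stmt_BAS) (hCMP : Stmt_CMP) (hCSU : Stmt_CSU) (hPFF : Stmt_PFF) (J : Set D.S)
    (hJ : D.NoFin J) (β : D.V) (hβR : β ∈ D.Rt) (hβ : ∀ t, 0 ≤ β t)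
    (h0 : ∀ s ∈ J, D.B β (D.e s) = 0) : D.In (D.perp J) β := by
  have hz : ∀ s ∈ J, D.B (res D J β) (D.e s) = 0 := by
    intro s0 hs0
    obtain ⟨K, hKJ, hs0K, hconn, hsep⟩ := hCMP D J s0 hs0
    rw [res_comp hKJ hsep hs0K]
    have hge : ∀ t ∈ K, 0 ≤ D.B (res D K β) (D.e t) := by
      intro t ht
      have := res_ge (J := K) hβ ht
      rw [h0 t (hKJ ht)] at this
      exact this
    by_contra hne
    have hp : 0 < D.B (res D K β) (D.e s0) := lt_of_le_of_ne (hge s0 hs0K) (Ne.symm hne)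
    exact hJ K hKJ ⟨s0, hs0K⟩ hsep
      (hPFF D K hconn ⟨res D K β, res_nonneg hβ, fun s hs => res_not hs, hge, s0, hs0K, hp⟩)
  -- outside of `J` the support is in `perp J`
  have hout : ∀ r, r ∉ J → β r ≠ 0 → r ∈ D.perp J := by
    intro r hr hne t ht
    have h1 := h0 t ht
    have h2 := hz t ht
    rw [B_e] at h1 h2
    have hsum : ∑ i, (β i - res D J β i) * D.k i t = 0 := by
      have e : ∑ i, (β i - res D J β i) * D.k i t =
          ∑ i, β i * D.k i t - ∑ i, res D J β i * D.k i t := by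
        rw [← Finset.sum_sub_distrib]
        exact Finset.sum_congr rfl fun i _ => sub_mul _ _ _
      rw [e, h1, h2, sub_zero]
    have hle : ∀ i ∈ (Finset.univ : Finset D.S), (β i - res D J β i) * D.k i t ≤ 0 := by
      intro i _
      by_cases hi : i ∈ J
      · rw [res_mem hi, sub_self, zero_mul]
      · rw [res_not hi, sub_zero]
        have hit : i ≠ t := fun h => hi (h ▸ ht)
        exact mul_nonpos_of_nonneg_of_nonpos (hβ i) (D.off i t hit)
    have h3 := (Finset.sum_eq_zero_iff_of_nonpos hle).1 hsum r (Finset.mem_univ r)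
    rw [res_not hr, sub_zero] at h3
    exact (mul_eq_zero.1 h3).resolve_left hne
  have hIn : D.In (J ∪ D.perp J) β := by
    intro r hr
    by_contra hne
    exact hr (Or.inr (hout r (fun h => hr (Or.inl h)) hne))
  rcases hCSU D J (D.perp J) (fun s hs t ht => by rw [D.symm s t]; exact ht s hs) β hβR hIn with h | h
  · exfalso
    have h1 : D.B β β = 1 := (hBAS D).2.2.2.2.2.1 β hβR
    have h2 : D.B β β = 0 := by
      rw [(hBAS D).2.2.2.1]
      refine Finset.sum_eq_zero fun s _ => ?_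
      by_cases hs : s ∈ J
      · rw [h0 s hs, mul_zero]
      · rw [h s hs, zero_mul]
    rw [h1] at h2
    exact one_ne_zero h2
  · exact h

end NFYaux

open NFYaux in
theorem nfy_thm (hBAS : Stmt_BAS) (hSGN : Stmt_SGN) (hCMP : Stmt_CMP) (hCSU : Stmt_CSU)
    (hPFF : Stmt_PFF) : Stmt_NFY := by
  intro D J hJ β hβ h0
  rcases (hSGN D).1 β hβ with h | h
  · exact pos_case hBAS hCMP hCSU hPFF J hJ β hβ h.2 h0
  · have h1 : ∀ s ∈ J, D.B (-β) (D.e s) = 0 := by
      intro s hs
      have := h0 s hs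
      rw [B_e] at this ⊢
      simp only [Pi.neg_apply, neg_mul, Finset.sum_neg_distrib]
      rw [this, neg_zero]
    have h2 := pos_case hBAS hCMP hCSU hPFF J hJ (-β) h.1 h.2 h1
    intro s hs
    have h3 := h2 s hs
    rw [Pi.neg_apply, neg_eq_zero] at h3
    exact h3

end Pool.CS
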