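import Pool.Agent.Work.MP_64ea0f_cs.InterfaceF

set_option autoImplicit false

namespace Pool.CS

namespace CSU67

variable (D : Rd)

theorem bform_single (v : D.V) (t : D.S) :
    bform D.k v (Pi.single t 1) = ∑ s, v s * D.k s t := by
  unfold bform
  refine Finset.sum_congr rfl fun s _ => ?_
  rw [Finset.sum_eq_single t]
  · simp
  · intro b _ hb
    simp [Pi.single_eq_of_ne hb]
  · intro h; exact absurd (Finset.mem_univ t) h

theorem sq (s : D.S) : D.σ s * D.σ s = 1 := by
  refine D.triv _ (fun r t => ?_)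
  have h : D.ρ (D.σ s * D.σ s) (Pi.single r 1) = (Pi.single r 1 : D.S → ℝ) := by
    rw [map_mul, Module.End.mul_apply, D.refl, D.refl, bform_single, bform_single]
    have h1 : (∑ x, ((Pi.single r 1 : D.S → ℝ) -
        (2 * ∑ y, (Pi.single r 1 : D.S → ℝ) y * D.k y s) • (Pi.single s 1 : D.S → ℝ)) x * D.k x s)
        = - ∑ y, (Pi.single r 1 : D.S → ℝ) y * D.k y s := by
      have h2 : ∀ x, ((Pi.single r 1 : D.S → ℝ) -
        (2 * ∑ y, (Pi.single r 1 : D.S → ℝ) y * D.k y s) • (Pi.single s 1 : D.S → ℝ)) x * D.k x s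
        = (Pi.single r 1 : D.S → ℝ) x * D.k x s -
          (2 * ∑ y, (Pi.single r 1 : D.S → ℝ) y * D.k y s) *
            ((Pi.single s 1 : D.S → ℝ) x * D.k x s) := by
        intro x
        simp only [Pi.sub_apply, Pi.smul_apply, smul_eq_mul]
        ring
      simp only [h2]
      rw [Finset.sum_sub_distrib, ← Finset.mul_sum]
      have h3 : ∑ x, (Pi.single s 1 : D.S → ℝ) x * D.k x s = 1 := by
        rw [Finset.sum_eq_single s]
        · simp [D.diag]
        · intro b _ hb; simp [Pi.single_eq_of_ne hb]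
        · intro h; exact absurd (Finset.mem_univ s) h
      rw [h3]; ring
    rw [h1]
    funext x
    simp only [Pi.sub_apply, Pi.smul_apply, smul_eq_mul]
    ring
  rw [h]
  by_cases hrt : t = r
  · subst hrt; simp
  · simp [Pi.single_eq_of_ne hrt]

theorem inv_s (s : D.S) : (D.σ s)⁻¹ = D.σ s := inv_eq_of_mul_eq_one_left (sq D s)

variable {D}

theorem step {J1 J2 : Set D.S} (h : ∀ s ∈ J1, ∀ t ∈ J2, D.k s t = 0) (t : D.S)
    (ht : t ∈ J1 ∪ J2) (v : D.V) (hv : D.In J1 v) : D.In J1 (D.ρ (D.σ t) v) := by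
  rw [D.refl, bform_single]
  by_cases h1 : t ∈ J1
  · intro s hs
    have hst : s ≠ t := fun h => hs (h ▸ h1)
    simp [hv s hs, Pi.single_eq_of_ne hst]
  · have h2 : t ∈ J2 := by
      rcases ht with h | h
      · exact absurd h h1
      · exact h
    have h3 : ∑ s, v s * D.k s t = 0 := by
      refine Finset.sum_eq_zero fun s _ => ?_
      by_cases hs : s ∈ J1
      · rw [h s hs t h2, mul_zero]
      · rw [hv s hs, zero_mul]
    rw [h3]
    simpa using hv

theorem pres {J1 J2 : Set D.S} (h : ∀ s ∈ J1, ∀ t ∈ J2, D.k s t = 0) (w : D.W)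
    (hw : w ∈ D.par (J1 ∪ J2)) :
    (∀ v : D.V, D.In J1 v → D.In J1 (D.ρ w v)) ∧ (∀ v : D.V, D.In J1 v → D.In J1 (D.ρ w⁻¹ v)) := by
  unfold Rd.par at hw
  induction hw using Subgroup.closure_induction with
  | mem x hx =>
    obtain ⟨t, ht, rfl⟩ := hx
    rw [inv_s]
    exact ⟨step h t ht, step h t ht⟩
  | one => simp
  | mul x y _ _ hx hy =>
    refine ⟨fun v hv => ?_, fun v hv => ?_⟩
    · rw [map_mul, Module.End.mul_apply]
      exact hx.1 _ (hy.1 _ hv)
    · rw [mul_inv_rev, map_mul, Module.End.mul_apply]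
      exact hy.2 _ (hx.2 _ hv)
  | inv x _ hx =>
    rw [inv_inv]
    exact ⟨hx.2, hx.1⟩

end CSU67

theorem csu_thm : Stmt_BAS → Stmt_PAR → Stmt_CSU := by
  intro _ hPAR D J1 J2 h φ hφ hIn
  obtain ⟨w, hw, s, hs, rfl⟩ := (hPAR D (J1 ∪ J2)).2.1 φ hφ hIn
  rcases hs with hs | hs
  · left
    refine (CSU67.pres h w hw).1 _ (fun t ht => ?_)
    exact Pi.single_eq_of_ne (fun (e : t = s) => ht (by rw [e]; exact hs)) _
  · right
    rw [Set.union_comm] at hw
    refine (CSU67.pres (J1 := J2) (J2 := J1) (fun s hs t ht => ?_) w hw).1 _ (fun t ht => ?_)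
    · rw [D.symm]; exact h t ht s hs
    · exact Pi.single_eq_of_ne (fun (e : t = s) => ht (by rw [e]; exact hs)) _

end Pool.CS
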